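import Pool.Agent.R634.NR.Main

/-!
MP_ba6bfd_gt, Q1.  If some regular cardinal `κ > 𝔠` carries a non-reflecting stationary set of
points of countable cofinality (which holds, for example, in `L`, or whenever `□_μ` holds for some
`μ ≥ 𝔠`), then there is a compact Hausdorff space `X` which is not Eberlein compact, although the
closure of every subset of cardinality less than `κ` (in particular, at most `𝔠`) is Eberlein
compact.  So a positive answer to Q1 is not provable in ZFC.
-/

open Cardinal Pool.Agent.R634.NR Filter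

namespace Pool.Agent.Results.MP_ba6bfd_gt.NonReflecting

/-- Eberlein compactness (for compact spaces), in the Amir-Lindenstrauss form: a continuous
injection into some `c₀(Γ)` with the pointwise topology, with bounded image. -/
def IsEberlein (X : Type) [TopologicalSpace X] : Prop :=
  ∃ (Γ : Type) (f : X → (Γ → ℝ)), Continuous f ∧ Function.Injective f ∧
    (∀ x, Tendsto (f x) cofinite (nhds 0)) ∧ ∃ M : ℝ, ∀ x γ, |f x γ| ≤ M

theorem result (κ : Cardinal.{0}) (hκ : 𝔠 < κ) (h : HasNonReflecting κ) :
    ∃ (X : Type) (_ : TopologicalSpace X) (_ : CompactSpace X) (_ : T2Space X),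
      (∀ A : Set X, #A < κ → IsEberlein (closure A)) ∧ ¬ IsEberlein X := by
  obtain ⟨X, i1, i2, i3, h1, h2⟩ := main (aleph0_lt_continuum.trans hκ) h
  refine ⟨X, i1, i2, i3, fun A hA => ?_, ?_⟩
  · obtain ⟨Γ, f, hf, hinj, hfin, hbd⟩ := h1 A hA
    refine ⟨Γ, f, hf, hinj, fun x => ?_, 1, hbd⟩
    refine Tendsto.congr' ?_ tendsto_const_nhds
    have h3 : ∀ᶠ γ in cofinite, γ ∉ Function.support (f x) := (hfin x).compl_mem_cofinite
    filter_upwards [h3] with γ hγ
    exact (Function.notMem_support.1 hγ).symm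
  · rintro ⟨Γ, f, hf, hinj, hlim, -⟩
    refine h2 Γ f hf hinj (fun x => ?_)
    have h3 : Function.support (f x) ⊆ ⋃ n : ℕ, {γ | ¬ |f x γ| < 1 / ((n : ℝ) + 1)} := by
      intro γ hγ
      obtain ⟨n, hn⟩ := exists_nat_one_div_lt (abs_pos.2 hγ)
      exact Set.mem_iUnion.2 ⟨n, not_lt.2 hn.le⟩
    refine (Set.countable_iUnion (fun n => Set.Finite.countable ?_)).mono h3
    have h4 : ∀ᶠ γ in cofinite, |f x γ| < 1 / ((n : ℝ) + 1) := by
      have h5 := (hlim x).abs
      rw [abs_zero] at h5
      exact h5.eventually (gt_mem_nhds (by positivity))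
    exact h4

end Pool.Agent.Results.MP_ba6bfd_gt.NonReflecting
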